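import Pool.Agent.Helper70.PGSeventeen

set_option autoImplicit false

open Pool.Agent.Helper70.PG

namespace Pool.Agent.Results.MP_d50faf_ag.SpecialHexahedron

/-- For `h₁ = p₁₂ - 2p₁₃ - p₁₄ - p₂₃ - 2p₂₄ + p₃₄` and
`h₂ = p₁₂ - p₁₃ - 2p₁₄ - 2p₂₃ - p₂₄ + p₃₄` the set `S` is a positive hexahedron and the closure
of its interior, but `(Gr(2,4), S)` has no canonical form. -/
theorem result :
    IsPositiveHexahedron ![1, -2, -1, -1, -2, 1] ![1, -1, -2, -2, -1, 1] ∧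
    hexahedron ![1, -2, -1, -1, -2, 1] ![1, -1, -2, -2, -1, 1] ⊆
      closure (relInterior (realPts Gr24)
        (hexahedron ![1, -2, -1, -1, -2, 1] ![1, -1, -2, -2, -1, 1])) ∧
    ¬ ∃ ω : RatForm Gr24 4, IsCanonicalForm 4 Gr24
        (hexahedron ![1, -2, -1, -1, -2, 1] ![1, -1, -2, -2, -1, 1]) ω :=
  ⟨isPositiveHexahedron, hexahedron_regular, fun ⟨ω, hω⟩ => no_canonical ω hω⟩

end Pool.Agent.Results.MP_d50faf_ag.SpecialHexahedron
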